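import Pool.Agent.H.MP_291982_ag.A

namespace Pool.Agent.Results.MP_291982_ag.Counter

open MvPolynomial Pool.Agent.H.MP_291982_ag

theorem result (p e : ℕ) [Fact p.Prime] (hp : 3 < p) (he : 0 < e) (k : Type) [Field k]
    [Algebra (ZMod p) k] :
    ∃ (F₀ : MvPolynomial (Fin 4) (ZMod p)) (F : MvPolynomial (Fin 4) k),
      F = map (algebraMap (ZMod p) k) F₀ ∧ F₀.IsHomogeneous (2 * p ^ e + 1) ∧ F ≠ 0 ∧
      Squarefree F ∧ F ∣ ∑ i, X i ^ p ^ e * pderiv i F ∧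
      (∀ π, Prime π → π ∣ F → ∀ G : Fin 4 → MvPolynomial (Fin 4) k,
        (∀ i j, π ∣ pderiv i F * G j ^ p - pderiv j F * G i ^ p) → ∀ i, π ∣ G i) ∧
      ∀ φ : MvPolynomial (Fin 4) k →ₐ[k] RatFunc k,
        (∀ i : Fin 4, φ (X i) = RatFunc.X ^ (i : ℕ)) → φ F = 0 ∧ φ (pderiv 3 F) ≠ 0 ∧
          ¬ ∃ g, φ (pderiv 2 F) / φ (pderiv 3 F) = g ^ p := by
  haveI : CharP k p := charP_of_injective_algebraMap (algebraMap (ZMod p) k).injective p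
  obtain ⟨m, hm⟩ : ∃ m, p ^ e = m + 2 :=
    ⟨p ^ e - 2, by have := Nat.le_self_pow he.ne' p; omega⟩
  have h0 : (p : k) = 0 := CharP.cast_eq_zero k p
  have h : ((m + 2 : ℕ) : k) = 0 := by rw [← hm, Nat.cast_pow, h0, zero_pow he.ne']
  have h2 : (2 : k) ≠ 0 := fun z => by
    have := Nat.le_of_dvd two_pos ((CharP.cast_eq_zero_iff k p 2).1 (by exact_mod_cast z))
    omega
  rw [hm]
  refine ⟨FF _ m, FF k m, (FF_map _ _ _).symm, FF_hom _ m, FF_ne h, sqfree h h2,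
    ⟨_, frob h⟩, fun π a b G c => noP h h2 p h0 a b G c, fun φ hφ => cubic h h2 p h0 φ ?_⟩
  ext i
  simp [hφ]

end Pool.Agent.Results.MP_291982_ag.Counter
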